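import Mathlib
import Pool.Agent.Y148.OD.Stm

/-!
# Project OD, job OD-4: extension of specialisations to projective points
-/

set_option autoImplicit false

namespace Pool.Agent.Y815.OD

open MvPolynomial Pool.Agent.Y148.OD

/-- a valuation ring whose centre on `A` is the prime ideal `p` -/
theorem exists_val {Ω : Type} [Field Ω] (A : Subring Ω) (p : Ideal A) [p.IsPrime] :
    ∃ (B : ValuationSubring Ω) (j : A →+* B), (∀ a, ((j a : B) : Ω) = a) ∧
      ∀ a, IsLocalRing.residue B (j a) = 0 ↔ a ∈ p := by
  obtain ⟨B, hle, hloc⟩ := (LocalSubring.ofPrime A p).exists_le_valuationSubring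
  have hAB : ∀ a : A, (a : Ω) ∈ B := fun a => hle (LocalSubring.le_ofPrime A p a.2)
  let j : A →+* B :=
    { toFun := fun a => ⟨a, hAB a⟩
      map_one' := rfl
      map_mul' := fun _ _ => rfl
      map_zero' := rfl
      map_add' := fun _ _ => rfl }
  refine ⟨B, j, fun a => rfl, fun a => ?_⟩
  have hu : IsUnit (j a) ↔ a ∉ p := by
    have h1 : IsUnit (algebraMap A (LocalSubring.ofPrime A p).toSubring a) ↔ a ∉ p :=
      (IsLocalization.AtPrime.isUnit_to_map_iff (LocalSubring.ofPrime A p).toSubring p a)
    rw [← h1]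
    constructor
    · intro h
      exact hloc.map_nonunit _ h
    · intro h
      exact h.map (Subring.inclusion hle)
  rw [IsLocalRing.residue_eq_zero_iff, IsLocalRing.mem_maximalIdeal, mem_nonunits_iff, hu, not_not]

theorem spec_of_hom (hHom : StmHom) : StmSpec := by
  intro Ω _ _ _ ι τ _ _ A hA ψ y hy
  classical
  have hp : (RingHom.ker ψ).IsPrime := RingHom.ker_isPrime ψ
  obtain ⟨B, j, hj, hres⟩ := exists_val A (RingHom.ker ψ)
  -- the coordinates of maximal valuation
  have hb : ∀ i, ∃ b : τ, ∀ a, B.valuation (y i a) ≤ B.valuation (y i b) := by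
    intro i
    have : Nonempty τ := by
      by_contra hne
      rw [not_nonempty_iff] at hne
      exact hy i (funext fun a => (hne.false a).elim)
    exact Finite.exists_max fun a => B.valuation (y i a)
  choose b hb using hb
  have hyb : ∀ i, y i (b i) ≠ 0 := by
    intro i h0
    apply hy i
    funext a
    have h1 := hb i a
    rw [h0, map_zero, le_zero_iff] at h1
    exact (map_eq_zero _).1 h1
  let c : ι → Ω := fun i => (y i (b i))⁻¹
  have hmem : ∀ i a, c i * y i a ∈ B := by
    intro i a
    rw [← ValuationSubring.valuation_le_one_iff, map_mul, map_inv₀]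
    have h0 : B.valuation (y i (b i)) ≠ 0 := (map_ne_zero _).2 (hyb i)
    calc (B.valuation (y i (b i)))⁻¹ * B.valuation (y i a)
        ≤ (B.valuation (y i (b i)))⁻¹ * B.valuation (y i (b i)) := by gcongr; exact hb i a
      _ = 1 := inv_mul_cancel₀ h0
  let κ := IsLocalRing.ResidueField B
  let res : B →+* κ := IsLocalRing.residue B
  let z : ι × τ → B := fun q => ⟨c q.1 * y q.1 q.2, hmem q.1 q.2⟩
  let u : ι × τ → κ := fun q => res (z q)
  have hu1 : ∀ i, u (i, b i) = 1 := by
    intro i
    have : z (i, b i) = 1 := Subtype.ext (inv_mul_cancel₀ (hyb i))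
    show res (z (i, b i)) = 1
    rw [this, map_one]
  -- the fields
  let f1 : A ⧸ RingHom.ker ψ →+* κ := Ideal.Quotient.lift _ (res.comp j) fun a ha => (hres a).2 ha
  let g1 : A ⧸ RingHom.ker ψ →+* Ω := Ideal.Quotient.lift _ ψ fun a ha => ha
  have hf1 : Function.Injective f1 := by
    rw [injective_iff_map_eq_zero]
    intro x hx
    obtain ⟨a, rfl⟩ := Ideal.Quotient.mk_surjective x
    exact Ideal.Quotient.eq_zero_iff_mem.2 ((hres a).1 hx)
  have hg1 : Function.Injective g1 := by
    rw [injective_iff_map_eq_zero]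
    intro x hx
    obtain ⟨a, rfl⟩ := Ideal.Quotient.mk_surjective x
    exact Ideal.Quotient.eq_zero_iff_mem.2 hx
  let E := FractionRing (A ⧸ RingHom.ker ψ)
  let fE : E →+* κ := IsFractionRing.lift hf1
  let gE : E →+* Ω := IsFractionRing.lift hg1
  let S : Set κ := Set.range (fun a : A => res (j a)) ∪ Set.range u
  let F : Subfield κ := Subfield.closure S
  have hAF : ∀ a : A, res (j a) ∈ F := fun a => Subfield.subset_closure (Or.inl ⟨a, rfl⟩)
  have huF : ∀ q, u q ∈ F := fun q => Subfield.subset_closure (Or.inr ⟨q, rfl⟩)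
  have hF : Countable F := by
    have h1 : Countable S := by
      rw [Set.countable_coe_iff]
      exact (Set.countable_range _).union (Set.countable_range _)
    have h2 := Subfield.cardinalMk_closure_le_max S
    rw [← Cardinal.mk_le_aleph0_iff]
    refine h2.trans (max_le ?_ le_rfl)
    exact Cardinal.mk_le_aleph0_iff.2 h1
  have hEF : ∀ x : E, fE x ∈ F := by
    intro x
    obtain ⟨r, s, rfl⟩ := IsLocalization.exists_mk'_eq (nonZeroDivisors (A ⧸ RingHom.ker ψ)) x
    rw [IsFractionRing.lift_mk']
    obtain ⟨r, rfl⟩ := Ideal.Quotient.mk_surjective r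
    obtain ⟨s', hs'⟩ := Ideal.Quotient.mk_surjective (s : A ⧸ RingHom.ker ψ)
    rw [← hs']
    exact div_mem (hAF r) (hAF s')
  let fF : E →+* F := fE.codRestrict F hEF
  obtain ⟨h, hh⟩ := hHom Ω E F fF gE
  let uF : ι × τ → F := fun q => ⟨u q, huF q⟩
  let jF : A →+* F := (res.comp j).codRestrict F hAF
  have hjF : h.comp jF = ψ := by
    ext a
    have e1 : jF a = fF (algebraMap _ E (Ideal.Quotient.mk (RingHom.ker ψ) a)) := by
      apply Subtype.ext
      show res (j a) = fE (algebraMap _ E (Ideal.Quotient.mk (RingHom.ker ψ) a))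
      rw [IsFractionRing.lift_algebraMap]
      rfl
    rw [RingHom.comp_apply, e1, ← RingHom.comp_apply, hh]
    show gE (algebraMap _ E (Ideal.Quotient.mk (RingHom.ker ψ) a)) = ψ a
    rw [IsFractionRing.lift_algebraMap]
    rfl
  refine ⟨c, fun i a => h (uF (i, a)), fun i => inv_ne_zero (hyb i), fun i h0 => ?_, ?_⟩
  · have h1 := congrFun h0 (b i)
    have h2 : uF (i, b i) = 1 := Subtype.ext (hu1 i)
    simp only [h2, map_one, Pi.zero_apply] at h1
    exact one_ne_zero h1
  · intro P hP
    have s1 : eval₂ j z P = 0 := by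
      have e1 : B.subtype (eval₂ j z P) = 0 := by
        rw [MvPolynomial.hom_eval₂, show B.subtype.comp j = A.subtype from RingHom.ext hj]
        exact hP
      exact Subtype.ext e1
    have s2 : eval₂ (res.comp j) u P = 0 := by
      have := congrArg res s1
      rw [MvPolynomial.hom_eval₂, map_zero] at this
      exact this
    have s3 : eval₂ jF uF P = 0 := by
      have e1 : F.subtype (eval₂ jF uF P) = 0 := by
        rw [MvPolynomial.hom_eval₂]
        exact s2
      exact Subtype.ext e1
    have s4 := congrArg h s3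
    rw [MvPolynomial.hom_eval₂, map_zero, hjF] at s4
    exact s4

end Pool.Agent.Y815.OD
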